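import Mathlib

namespace Pool.Agent.Results.MP_045218_nt.AffineIntersective

open Polynomial Filter Topology
open scoped symmDiff RatFunc

/-- Condition (i): the polynomials `P i` have a common root modulo every nonzero ideal. -/
def CondI {R : Type*} [CommRing R] {k : ℕ} (P : Fin k → R[X]) : Prop :=
  ∀ I : Ideal R, I ≠ ⊥ → ∃ n : R, ∀ i, (P i).eval n ∈ I

/-- A Følner sequence of nonempty finite subsets of an abelian group. -/
def IsFolner {G : Type*} [AddCommGroup G] (F : ℕ → Finset G) : Prop :=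
  (∀ N, (F N).Nonempty) ∧
  ∀ a : G, Tendsto (fun N => ((((fun x => x + a) '' (F N : Set G)) ∆ (F N : Set G)).ncard : ℝ) /
    ((F N).card : ℝ)) atTop (𝓝 0)

/-- Upper Banach density: the supremum over all Følner sequences of the upper density. -/
noncomputable def upperBanachDensity {G : Type*} [AddCommGroup G] (A : Set G) : ℝ :=
  sSup {d : ℝ | ∃ F : ℕ → Finset G, IsFolner F ∧
    d = limsup (fun N => ((A ∩ (F N : Set G)).ncard : ℝ) / ((F N).card : ℝ)) atTop}

/-- Condition (ii): every set of positive upper Banach density contains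
`{x, x + P_1(n), …, x + P_k(n)}` for some `x, n`. -/
def CondII {R : Type*} [CommRing R] {k : ℕ} (P : Fin k → R[X]) : Prop :=
  ∀ A : Set R, 0 < upperBanachDensity A → ∃ x n : R, x ∈ A ∧ ∀ i, x + (P i).eval n ∈ A

/-! ### Density of an index two subgroup -/

theorem density_pos {G : Type*} [AddCommGroup G] (H : ℕ → AddSubgroup G)
    (hfin : ∀ N, (H N : Set G).Finite) (hev : ∀ a : G, ∀ᶠ N in atTop, a ∈ H N)
    (χ : G →+ ZMod 2) : 0 < upperBanachDensity {x | χ x = 0} := by
  classical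
  set F : ℕ → Finset G := fun N => (hfin N).toFinset with hF
  have hFc : ∀ N, (F N : Set G) = H N := fun N => by simp [hF]
  have hFol : IsFolner F := by
    refine ⟨fun N => ⟨0, by simp [hF, (H N).zero_mem]⟩, fun a => ?_⟩
    refine tendsto_const_nhds.congr' ?_
    filter_upwards [hev a] with N hN
    have : ((fun x => x + a) '' (F N : Set G)) = (F N : Set G) := by
      rw [hFc]
      ext y
      constructor
      · rintro ⟨x, hx, rfl⟩
        exact (H N).add_mem hx hN
      · intro hy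
        exact ⟨y - a, (H N).sub_mem hy hN, by simp⟩
    rw [this, symmDiff_self]
    simp
  have hle1 : ∀ (A : Set G) (F : ℕ → Finset G) (N : ℕ), IsFolner F →
      ((A ∩ (F N : Set G)).ncard : ℝ) / ((F N).card : ℝ) ≤ 1 := by
    intro A F N hF
    have hpos : 0 < ((F N).card : ℝ) := by
      exact_mod_cast (hF.1 N).card_pos
    rw [div_le_one hpos]
    have : (A ∩ (F N : Set G)).ncard ≤ (F N : Set G).ncard :=
      Set.ncard_le_ncard Set.inter_subset_right (F N).finite_toSet
    rw [Set.ncard_coe_finset] at this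
    exact_mod_cast this
  have hge0 : ∀ (A : Set G) (F : ℕ → Finset G) (N : ℕ),
      0 ≤ ((A ∩ (F N : Set G)).ncard : ℝ) / ((F N).card : ℝ) := by
    intro A F N
    positivity
  have hhalf : ∀ N, (1 / 2 : ℝ) ≤ (({x | χ x = 0} ∩ (F N : Set G)).ncard : ℝ) / ((F N).card : ℝ) := by
    intro N
    have hpos : 0 < ((F N).card : ℝ) := by
      exact_mod_cast (hFol.1 N).card_pos
    rw [le_div_iff₀ hpos]
    have key : (F N : Set G).ncard ≤ 2 * ({x | χ x = 0} ∩ (F N : Set G)).ncard := by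
      have hfinI : ({x | χ x = 0} ∩ (F N : Set G)).Finite :=
        (F N).finite_toSet.subset Set.inter_subset_right
      by_cases hex : ∃ h ∈ H N, χ h ≠ 0
      · obtain ⟨h, hh, hχ⟩ := hex
        have hχ1 : χ h = 1 := by
          have : ∀ z : ZMod 2, z ≠ 0 → z = 1 := by decide
          exact this _ hχ
        have hsub : (F N : Set G) ⊆ ({x | χ x = 0} ∩ (F N : Set G)) ∪
            ((fun x => x - h) '' ({x | χ x = 0} ∩ (F N : Set G))) := by
          intro x hx
          by_cases h0 : χ x = 0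
          · exact Or.inl ⟨h0, hx⟩
          · refine Or.inr ⟨x + h, ⟨?_, ?_⟩, by simp⟩
            · have : ∀ z : ZMod 2, z ≠ 0 → z = 1 := by decide
              show χ (x + h) = 0
              rw [map_add, this _ h0, hχ1]
              decide
            · rw [hFc] at hx ⊢
              exact (H N).add_mem hx hh
        calc (F N : Set G).ncard ≤ _ := Set.ncard_le_ncard hsub (hfinI.union (hfinI.image _))
          _ ≤ _ := Set.ncard_union_le _ _
          _ ≤ ({x | χ x = 0} ∩ (F N : Set G)).ncard + ({x | χ x = 0} ∩ (F N : Set G)).ncard :=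
              Nat.add_le_add_left (Set.ncard_image_le hfinI) _
          _ = _ := by ring
      · push Not at hex
        have : {x | χ x = 0} ∩ (F N : Set G) = (F N : Set G) := by
          apply Set.inter_eq_right.mpr
          intro x hx
          rw [hFc] at hx
          exact hex x hx
        rw [this]
        omega
    rw [Set.ncard_coe_finset] at key
    have : ((F N).card : ℝ) ≤ 2 * (({x | χ x = 0} ∩ (F N : Set G)).ncard : ℝ) := by
      exact_mod_cast key
    linarith
  have hlim : (1 / 2 : ℝ) ≤ limsup (fun N => (({x | χ x = 0} ∩ (F N : Set G)).ncard : ℝ) /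
      ((F N).card : ℝ)) atTop := by
    refine le_limsup_of_frequently_le (Eventually.of_forall hhalf).frequently ?_
    exact ⟨1, by simpa using ⟨0, fun N _ => hle1 _ F N hFol⟩⟩
  have hbdd : BddAbove {d : ℝ | ∃ F : ℕ → Finset G, IsFolner F ∧
      d = limsup (fun N => (({x | χ x = 0} ∩ (F N : Set G)).ncard : ℝ) / ((F N).card : ℝ)) atTop} := by
    refine ⟨1, ?_⟩
    rintro d ⟨F', hF', rfl⟩
    refine limsup_le_of_le ?_ (Eventually.of_forall fun N => hle1 _ F' N hF')
    exact ⟨0, by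
      intro a ha
      have ha' : ∀ᶠ N in atTop, (({x | χ x = 0} ∩ (F' N : Set G)).ncard : ℝ) / ((F' N).card : ℝ) ≤ a :=
        Filter.eventually_map.mp ha
      obtain ⟨N, hN⟩ := ha'.exists
      exact (hge0 _ F' N).trans hN⟩
  have : (1 / 2 : ℝ) ≤ upperBanachDensity {x | χ x = 0} :=
    hlim.trans (le_csSup hbdd ⟨F, hFol, rfl⟩)
  linarith

/-! ### The polynomial -/

section Poly

variable {R : Type*} [CommRing R]

/-- The product of eight quadratics. -/
noncomputable def Dpoly (t : R) : R[X] :=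
  (X ^ 2 + X + C (t ^ 3)) * ((X + C t) ^ 2 + (X + C t) + C (t ^ 3)) *
  (X ^ 2 + X + C (t + t ^ 3)) * ((X + C t) ^ 2 + (X + C t) + C (t + t ^ 3)) *
  (X ^ 2 + C t * X + C (t ^ 3)) * ((X + 1) ^ 2 + C t * (X + 1) + C (t ^ 3)) *
  (X ^ 2 + C (t + 1) * X + C ((t + 1) ^ 2 * t)) *
  ((X + 1) ^ 2 + C (t + 1) * (X + 1) + C ((t + 1) ^ 2 * t))

/-- The value of the product. -/
def Dval (t n : R) : R :=
  (n ^ 2 + n + t ^ 3) * ((n + t) ^ 2 + (n + t) + t ^ 3) *
  (n ^ 2 + n + (t + t ^ 3)) * ((n + t) ^ 2 + (n + t) + (t + t ^ 3)) *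
  (n ^ 2 + t * n + t ^ 3) * ((n + 1) ^ 2 + t * (n + 1) + t ^ 3) *
  (n ^ 2 + (t + 1) * n + (t + 1) ^ 2 * t) *
  ((n + 1) ^ 2 + (t + 1) * (n + 1) + (t + 1) ^ 2 * t)

theorem eval_Dpoly (t n : R) : (Dpoly t).eval n = Dval t n := by
  simp [Dpoly, Dval]

def cA (t : R) : R := t ^ 6 + (t ^ 2 + t) * t ^ 3
def cB (t : R) : R := (t + t ^ 3) ^ 2 + (t ^ 2 + t) * (t + t ^ 3)
def cC (t : R) : R := t ^ 3 * (t ^ 3 + t + 1)
def cD (t : R) : R := (t + 1) ^ 2 * t * ((t + 1) ^ 2 * t + t)
def cE (t : R) : R := t ^ 2 + (t ^ 2 + t) * t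
def Yv (t n : R) : R := n ^ 4 + (t ^ 2 + t + 1) * n ^ 2 + (t ^ 2 + t) * n
def Zv (t n : R) : R := Yv t n ^ 2 + cE t * Yv t n
def Lam (t n : R) : R := Zv t n ^ 2 + (cA t * cB t + cC t * cD t) * Zv t n

theorem Yv_add (h2 : (2 : R) = 0) (t n m : R) : Yv t (n + m) = Yv t n + Yv t m := by
  unfold Yv
  linear_combination (2 * n ^ 3 * m + 3 * n ^ 2 * m ^ 2 + 2 * n * m ^ 3 +
    (t ^ 2 + t + 1) * n * m) * h2

theorem sq_add (h2 : (2 : R) = 0) (x y : R) : (x + y) ^ 2 = x ^ 2 + y ^ 2 := by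
  linear_combination (x * y) * h2

theorem Zv_add (h2 : (2 : R) = 0) (t n m : R) : Zv t (n + m) = Zv t n + Zv t m := by
  unfold Zv
  rw [Yv_add h2, sq_add h2]
  ring

theorem Lam_add (h2 : (2 : R) = 0) (t n m : R) : Lam t (n + m) = Lam t n + Lam t m := by
  unfold Lam
  rw [Zv_add h2, sq_add h2]
  ring

theorem Dval_eq (h2 : (2 : R) = 0) (t n : R) :
    Dval t n = Lam t n + cA t * cB t * (cC t * cD t) := by
  have e1 : (n ^ 2 + n + t ^ 3) * ((n + t) ^ 2 + (n + t) + t ^ 3) = Yv t n + cA t := by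
    unfold Yv cA
    linear_combination (n^3*t + n^3 + n^2*t^3 + n^2*t + n*t^4 + n*t^3) * h2
  have e2 : (n ^ 2 + n + (t + t ^ 3)) * ((n + t) ^ 2 + (n + t) + (t + t ^ 3)) = Yv t n + cB t := by
    unfold Yv cB
    linear_combination
      (n^3*t + n^3 + n^2*t^3 + 2*n^2*t + n*t^4 + n*t^3 + n*t^2 + n*t) * h2
  have e3 : (n ^ 2 + t * n + t ^ 3) * ((n + 1) ^ 2 + t * (n + 1) + t ^ 3) = Yv t n + cC t := by
    unfold Yv cC
    linear_combination (n^3*t + n^3 + n^2*t^3 + n^2*t + n*t^4 + n*t^3) * h2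
  have e4 : (n ^ 2 + (t + 1) * n + (t + 1) ^ 2 * t) *
      ((n + 1) ^ 2 + (t + 1) * (n + 1) + (t + 1) ^ 2 * t) = Yv t n + cD t := by
    unfold Yv cD
    linear_combination (n^3*t + 2*n^3 + n^2*t^3 + 2*n^2*t^2 + 3*n^2*t + 2*n^2 + n*t^4 + 4*n*t^3 +
      5*n*t^2 + 3*n*t + n + t^3 + 2*t^2 + t) * h2
  have e5 : cA t + cB t = cE t := by
    unfold cA cB cE
    linear_combination (t^6 + t^5 + 2*t^4) * h2
  have e6 : cC t + cD t = cE t := by
    unfold cC cD cE
    linear_combination (t^6 + 2*t^5 + 4*t^4 + 3*t^3) * h2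
  have e7 : (Yv t n + cA t) * (Yv t n + cB t) = Zv t n + cA t * cB t := by
    unfold Zv
    rw [← e5]
    ring
  have e8 : (Yv t n + cC t) * (Yv t n + cD t) = Zv t n + cC t * cD t := by
    unfold Zv
    rw [← e6]
    ring
  calc Dval t n = ((n ^ 2 + n + t ^ 3) * ((n + t) ^ 2 + (n + t) + t ^ 3)) *
        ((n ^ 2 + n + (t + t ^ 3)) * ((n + t) ^ 2 + (n + t) + (t + t ^ 3))) *
        (((n ^ 2 + t * n + t ^ 3) * ((n + 1) ^ 2 + t * (n + 1) + t ^ 3)) *
        ((n ^ 2 + (t + 1) * n + (t + 1) ^ 2 * t) *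
          ((n + 1) ^ 2 + (t + 1) * (n + 1) + (t + 1) ^ 2 * t))) := by
        unfold Dval; ring
    _ = (Zv t n + cA t * cB t) * (Zv t n + cC t * cD t) := by rw [e1, e2, e3, e4, e7, e8]
    _ = _ := by unfold Lam; ring

theorem lift_root (h2 : (2 : R) = 0) (p f x : R) (hx : p ∣ x ^ 2 + x + f) (k : ℕ) :
    ∃ y, p ^ k ∣ y ^ 2 + y + f := by
  have key : ∀ j : ℕ, ∃ y, p ^ (2 ^ j) ∣ y ^ 2 + y + f := by
    intro j
    induction j with
    | zero => exact ⟨x, by simpa using hx⟩
    | succ j ih =>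
      obtain ⟨y, hy⟩ := ih
      refine ⟨y + (y ^ 2 + y + f), ?_⟩
      have : (y + (y ^ 2 + y + f)) ^ 2 + (y + (y ^ 2 + y + f)) + f = (y ^ 2 + y + f) ^ 2 := by
        linear_combination (y * (y ^ 2 + y + f) + (y ^ 2 + y + f)) * h2
      rw [this, pow_succ, pow_mul]
      exact pow_dvd_pow_of_dvd hy 2
  obtain ⟨y, hy⟩ := key k
  exact ⟨y, (pow_dvd_pow p (Nat.lt_two_pow_self).le).trans hy⟩

end Poly

/-! ### The base ring `𝔽₂[t]` -/

theorem two_eq_zero : (2 : (ZMod 2)[X]) = 0 := by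
  exact CharTwo.two_eq_zero

theorem quad_ne_zero (n B c : (ZMod 2)[X]) (hB : B.natDegree ≤ 1) (hc : c.natDegree = 3) :
    n ^ 2 + B * n + c ≠ 0 := by
  intro h
  have h1 : c = -(n * (n + B)) := by linear_combination h
  have h2 : (n * (n + B)).natDegree = 3 := by
    rw [← hc, h1, natDegree_neg]
  by_cases hn : n.natDegree ≤ 1
  · have : (n * (n + B)).natDegree ≤ n.natDegree + (n + B).natDegree := natDegree_mul_le
    have h3 : (n + B).natDegree ≤ 1 := (natDegree_add_le _ _).trans (max_le hn hB)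
    omega
  · push Not at hn
    have h4 : (n + B).natDegree = n.natDegree :=
      natDegree_add_eq_left_of_natDegree_lt (lt_of_le_of_lt hB hn)
    have hn0 : n ≠ 0 := by
      rintro rfl
      simp at hn
    have hnB : n + B ≠ 0 := by
      intro h0
      rw [h0] at h4
      simp at h4
      omega
    rw [natDegree_mul hn0 hnB, h4] at h2
    omega

theorem Dval_ne_zero (n : (ZMod 2)[X]) : Dval (X : (ZMod 2)[X]) n ≠ 0 := by
  have d1 : ((X : (ZMod 2)[X]) ^ 3).natDegree = 3 := natDegree_X_pow 3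
  have d2 : ((X : (ZMod 2)[X]) + X ^ 3).natDegree = 3 := by compute_degree!
  have d3 : (((X : (ZMod 2)[X]) + 1) ^ 2 * X).natDegree = 3 := by compute_degree!
  have b1 : ((1 : (ZMod 2)[X])).natDegree ≤ 1 := by simp
  have b2 : ((X : (ZMod 2)[X])).natDegree ≤ 1 := natDegree_X_le
  have b3 : ((X : (ZMod 2)[X]) + 1).natDegree ≤ 1 := by compute_degree!
  unfold Dval
  refine mul_ne_zero (mul_ne_zero (mul_ne_zero (mul_ne_zero (mul_ne_zero (mul_ne_zero
    (mul_ne_zero ?_ ?_) ?_) ?_) ?_) ?_) ?_) ?_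
  · simpa using quad_ne_zero n 1 _ b1 d1
  · simpa using quad_ne_zero (n + X) 1 _ b1 d1
  · simpa using quad_ne_zero n 1 _ b1 d2
  · simpa using quad_ne_zero (n + X) 1 _ b1 d2
  · exact quad_ne_zero n X _ b2 d1
  · exact quad_ne_zero (n + 1) X _ b2 d1
  · exact quad_ne_zero n (X + 1) _ b3 d3
  · exact quad_ne_zero (n + 1) (X + 1) _ b3 d3

theorem artin_schreier (p : (ZMod 2)[X]) (hp : Prime p) (f g : (ZMod 2)[X]) :
    (∃ x, p ∣ x ^ 2 + x + f) ∨ (∃ x, p ∣ x ^ 2 + x + g) ∨ (∃ x, p ∣ x ^ 2 + x + (f + g)) := by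
  classical
  have : Fact (Irreducible p) := ⟨hp.irreducible⟩
  have : Module.Finite (ZMod 2) (AdjoinRoot p) := (AdjoinRoot.powerBasis hp.ne_zero).finite
  have : Finite (AdjoinRoot p) := Module.finite_of_finite (ZMod 2)
  have h2 : (2 : AdjoinRoot p) = 0 := by
    have := congrArg (AdjoinRoot.mk p) two_eq_zero
    rwa [map_ofNat, map_zero] at this
  let φ : AdjoinRoot p →+ AdjoinRoot p :=
    { toFun := fun x => x ^ 2 + x
      map_zero' := by simp
      map_add' := fun x y => by linear_combination (x * y) * h2 }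
  have hker : Nat.card φ.ker = 2 := by
    have : (φ.ker : Set (AdjoinRoot p)) = {0, 1} := by
      ext x
      simp only [SetLike.mem_coe, AddMonoidHom.mem_ker, Set.mem_insert_iff, Set.mem_singleton_iff]
      show x ^ 2 + x = 0 ↔ _
      constructor
      · intro h
        have : x * (x - 1) = 0 := by linear_combination h - x * h2
        rcases mul_eq_zero.mp this with h | h
        · exact Or.inl h
        · exact Or.inr (sub_eq_zero.mp h)
      · rintro (rfl | rfl)
        · simp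
        · linear_combination h2
    have h3 : Nat.card φ.ker = (φ.ker : Set (AdjoinRoot p)).ncard := rfl
    rw [h3, this, Set.ncard_pair zero_ne_one]
  have hidx : φ.range.index = 2 := by
    have h1 := AddSubgroup.card_mul_index φ.ker
    have h4 := AddSubgroup.card_mul_index φ.range
    rw [AddSubgroup.index_ker] at h1
    have hpos : 0 < Nat.card φ.range := Nat.card_pos
    rw [hker] at h1
    have : Nat.card φ.range * φ.range.index = Nat.card φ.range * 2 := by
      rw [h4, ← h1, mul_comm]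
    exact Nat.eq_of_mul_eq_mul_left hpos this
  have conv : ∀ h : (ZMod 2)[X], AdjoinRoot.mk p h ∈ φ.range → ∃ x, p ∣ x ^ 2 + x + h := by
    rintro h ⟨y, hy⟩
    obtain ⟨x, rfl⟩ := AdjoinRoot.mk_surjective y
    refine ⟨x, ?_⟩
    rw [← AdjoinRoot.mk_eq_zero]
    have hy' : (AdjoinRoot.mk p x) ^ 2 + AdjoinRoot.mk p x = AdjoinRoot.mk p h := hy
    rw [map_add, map_add, map_pow, hy']
    linear_combination (AdjoinRoot.mk p h) * h2
  by_cases hf : AdjoinRoot.mk p f ∈ φ.range
  · exact Or.inl (conv _ hf)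
  by_cases hg : AdjoinRoot.mk p g ∈ φ.range
  · exact Or.inr (Or.inl (conv _ hg))
  · refine Or.inr (Or.inr (conv _ ?_))
    rw [map_add, AddSubgroup.add_mem_iff_of_index_two hidx]
    exact ⟨fun h => absurd h hf, fun h => absurd h hg⟩

theorem exists_root_mod (m : (ZMod 2)[X]) (hm : m ≠ 0) : ∃ n, m ∣ Dval (X : (ZMod 2)[X]) n := by
  revert hm
  refine UniqueFactorizationMonoid.induction_on_coprime
    (P := fun m => m ≠ 0 → ∃ n, m ∣ Dval (X : (ZMod 2)[X]) n) m ?_ ?_ ?_ ?_
  · intro h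
    exact absurd rfl h
  · intro x hx _
    exact ⟨0, hx.dvd⟩
  · intro p i hp _
    rcases artin_schreier p hp (X ^ 3) X with ⟨x, hx⟩ | ⟨x, hx⟩ | ⟨x, hx⟩
    · obtain ⟨y, hy⟩ := lift_root two_eq_zero p _ x hx i
      refine ⟨y, ?_⟩
      unfold Dval
      simp only [mul_assoc]
      exact Dvd.dvd.mul_right hy _
    · obtain ⟨y, hy⟩ := lift_root two_eq_zero p _ x hx i
      refine ⟨X * y, ?_⟩
      have : p ^ i ∣ (X * y) ^ 2 + X * (X * y) + X ^ 3 := by
        have h : (X * y) ^ 2 + X * (X * y) + X ^ 3 = X ^ 2 * (y ^ 2 + y + X) := by ring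
        rw [h]
        exact Dvd.dvd.mul_left hy _
      unfold Dval
      exact Dvd.dvd.mul_right (Dvd.dvd.mul_right (Dvd.dvd.mul_right (Dvd.dvd.mul_left this _) _) _) _
    · obtain ⟨y, hy⟩ := lift_root two_eq_zero p _ x hx i
      refine ⟨y, ?_⟩
      have h3 : (X : (ZMod 2)[X]) ^ 3 + X = X + X ^ 3 := by ring
      rw [h3] at hy
      unfold Dval
      exact Dvd.dvd.mul_right (Dvd.dvd.mul_right (Dvd.dvd.mul_right (Dvd.dvd.mul_right
        (Dvd.dvd.mul_right (Dvd.dvd.mul_left hy _) _) _) _) _) _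
  · intro x y hxy hx hy hne
    have hx0 : x ≠ 0 := left_ne_zero_of_mul hne
    have hy0 : y ≠ 0 := right_ne_zero_of_mul hne
    obtain ⟨a, ha⟩ := hx hx0
    obtain ⟨b, hb⟩ := hy hy0
    obtain ⟨u, v, huv⟩ := isRelPrime_iff_isCoprime.mp hxy
    refine ⟨b * (u * x) + a * (v * y), ?_⟩
    have hcop : IsCoprime x y := ⟨u, v, huv⟩
    refine hcop.mul_dvd ?_ ?_
    · have h1 := sub_dvd_eval_sub (b * (u * x) + a * (v * y)) a (Dpoly (X : (ZMod 2)[X]))
      rw [eval_Dpoly, eval_Dpoly] at h1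
      have h2 : x ∣ b * (u * x) + a * (v * y) - a :=
        ⟨(b - a) * u, by linear_combination a * huv⟩
      exact (dvd_sub_left ha).mp (h2.trans h1) |> fun h => by simpa using h
    · have h1 := sub_dvd_eval_sub (b * (u * x) + a * (v * y)) b (Dpoly (X : (ZMod 2)[X]))
      rw [eval_Dpoly, eval_Dpoly] at h1
      have h2 : y ∣ b * (u * x) + a * (v * y) - b :=
        ⟨(a - b) * v, by linear_combination b * huv⟩
      exact (dvd_sub_left hb).mp (h2.trans h1) |> fun h => by simpa using h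

/-- The additive part of the polynomial as an additive homomorphism. -/
noncomputable def LamHom : (ZMod 2)[X] →+ (ZMod 2)[X] where
  toFun := fun n => Lam (X : (ZMod 2)[X]) n
  map_zero' := by simp [Lam, Zv, Yv]
  map_add' := fun n m => Lam_add two_eq_zero _ n m

/-- A linear functional which is `1` on every value of the polynomial. -/
theorem exists_functional : ∃ χ : (ZMod 2)[X] →+ ZMod 2,
    ∀ n, χ (Dval (X : (ZMod 2)[X]) n) ≠ 0 := by
  set L : (ZMod 2)[X] →ₗ[ZMod 2] (ZMod 2)[X] := LamHom.toZModLinearMap 2 with hL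
  set κ : (ZMod 2)[X] := cA X * cB X * (cC X * cD X) with hκ
  have hnot : κ ∉ LinearMap.range L := by
    rintro ⟨n, hn⟩
    have hn' : Lam (X : (ZMod 2)[X]) n = κ := hn
    apply Dval_ne_zero n
    rw [Dval_eq two_eq_zero, hn', ← hκ]
    linear_combination κ * two_eq_zero
  obtain ⟨f, hf, hle⟩ := Submodule.exists_le_ker_of_notMem hnot
  refine ⟨f.toAddMonoidHom, fun n => ?_⟩
  rw [Dval_eq two_eq_zero]
  have h1 : f (Lam (X : (ZMod 2)[X]) n) = 0 := by
    have : Lam (X : (ZMod 2)[X]) n ∈ LinearMap.range L := ⟨n, rfl⟩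
    exact hle this
  show f (Lam (X : (ZMod 2)[X]) n + cA X * cB X * (cC X * cD X)) ≠ 0
  rw [map_add, h1, zero_add]
  exact hf

theorem natDegree_Dpoly_pos : 0 < (Dpoly (X : (ZMod 2)[X])).natDegree ∧
    Dpoly (X : (ZMod 2)[X]) ≠ 0 := by
  have hne : Dpoly (X : (ZMod 2)[X]) ≠ 0 := by
    intro h
    apply Dval_ne_zero 0
    rw [← eval_Dpoly, h, eval_zero]
  refine ⟨?_, hne⟩
  have hq : (X ^ 2 + X + C ((X : (ZMod 2)[X]) ^ 3)).natDegree = 2 := by compute_degree!
  have hdvd : (X ^ 2 + X + C ((X : (ZMod 2)[X]) ^ 3)) ∣ Dpoly (X : (ZMod 2)[X]) := by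
    unfold Dpoly
    simp only [mul_assoc]
    exact dvd_mul_right _ _
  have := natDegree_le_of_dvd hdvd hne
  omega

/-- The family `D, x·D, x²·D, …`. -/
noncomputable def fam (k : ℕ) (i : Fin k) : ((ZMod 2)[X])[X] :=
  Dpoly (X : (ZMod 2)[X]) * X ^ (i : ℕ)

theorem main_equiv {S : Type*} [CommRing S] [IsDomain S] (e : (ZMod 2)[X] ≃+* S) (k : ℕ)
    (hk : 1 ≤ k) :
    ∃ P : Fin k → S[X], Function.Injective P ∧ (∀ i, 0 < (P i).natDegree) ∧
      CondI P ∧ ¬ CondII P := by
  obtain ⟨hD1, hD0⟩ := natDegree_Dpoly_pos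
  have hdeg : ∀ i : Fin k, (fam k i).natDegree = (Dpoly (X : (ZMod 2)[X])).natDegree + i := by
    intro i
    unfold fam
    rw [natDegree_mul hD0 (pow_ne_zero _ X_ne_zero), natDegree_X_pow]
  have hmapdeg : ∀ i : Fin k, ((fam k i).map e.toRingHom).natDegree = (fam k i).natDegree :=
    fun i => natDegree_map_eq_of_injective e.injective _
  have heval : ∀ (i : Fin k) (n : (ZMod 2)[X]), ((fam k i).map e.toRingHom).eval (e n) =
      e ((fam k i).eval n) := by
    intro i n
    have := Polynomial.eval_map_apply (f := e.toRingHom) (p := fam k i) n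
    simpa using this
  refine ⟨fun i => (fam k i).map e.toRingHom, ?_, ?_, ?_, ?_⟩
  · intro i j hij
    have : ((fam k i).map e.toRingHom).natDegree = ((fam k j).map e.toRingHom).natDegree :=
      congrArg natDegree hij
    rw [hmapdeg, hmapdeg, hdeg, hdeg] at this
    exact Fin.ext (by omega)
  · intro i
    show 0 < ((fam k i).map e.toRingHom).natDegree
    rw [hmapdeg, hdeg]
    omega
  · intro I hI
    obtain ⟨s, hs, hs0⟩ := Submodule.exists_mem_ne_zero_of_ne_bot hI
    have hm0 : e.symm s ≠ 0 := by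
      simpa using hs0
    obtain ⟨n, c, hc⟩ := exists_root_mod (e.symm s) hm0
    refine ⟨e n, fun i => ?_⟩
    show ((fam k i).map e.toRingHom).eval (e n) ∈ I
    rw [heval]
    unfold fam
    rw [eval_mul, eval_Dpoly, hc, map_mul, map_mul]
    refine I.mul_mem_right _ (I.mul_mem_right _ ?_)
    simpa using hs
  · intro hII
    obtain ⟨χ, hχ⟩ := exists_functional
    set χ' : S →+ ZMod 2 := χ.comp (e.symm : S →+* (ZMod 2)[X]).toAddMonoidHom with hχ'
    have hpos : 0 < upperBanachDensity {x : S | χ' x = 0} := by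
      refine density_pos
        (fun N => ((degreeLT (ZMod 2) N).toAddSubgroup).map (e : (ZMod 2)[X] →+* S).toAddMonoidHom)
        ?_ ?_ χ'
      · intro N
        have hfin : Finite (degreeLT (ZMod 2) N) := Module.finite_of_finite (ZMod 2)
        rw [AddSubgroup.coe_map]
        exact Set.Finite.image _ hfin
      · intro a
        filter_upwards [eventually_gt_atTop (e.symm a).natDegree] with N hN
        refine ⟨e.symm a, ?_, by simp⟩
        show e.symm a ∈ degreeLT (ZMod 2) N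
        rw [mem_degreeLT]
        exact lt_of_le_of_lt degree_le_natDegree (by exact_mod_cast hN)
    obtain ⟨x, n, hx, hall⟩ := hII _ hpos
    have h0 := hall ⟨0, hk⟩
    simp only [Set.mem_ofPred_eq, map_add] at hx h0
    rw [hx, zero_add] at h0
    have h1 : e.symm (((fam k ⟨0, hk⟩).map e.toRingHom).eval n) =
        Dval (X : (ZMod 2)[X]) (e.symm n) := by
      have h2 := heval ⟨0, hk⟩ (e.symm n)
      rw [e.apply_symm_apply] at h2
      rw [h2, e.symm_apply_apply]
      unfold fam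
      simp [eval_Dpoly]
    apply hχ (e.symm n)
    rw [← h1]
    exact h0

/-- The equivalence of (i) and (ii) fails over `𝔽₂(t)`, for every number `k ≥ 1` of
polynomials. -/
theorem result :
    (¬ ∀ (F : Type) [Field F] [Finite F] (K : Type) [Field K] [Algebra F[X] K] [Algebra F⟮X⟯ K]
        [IsScalarTower F[X] F⟮X⟯ K] [FunctionField F K] (k : ℕ)
        (P : Fin k → (FunctionField.ringOfIntegers F K)[X]),
        1 ≤ k → (∀ i, 0 < (P i).natDegree) → (CondI P ↔ CondII P)) ∧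
    (∀ k : ℕ, 1 ≤ k →
      ∃ P : Fin k → (FunctionField.ringOfIntegers (ZMod 2) (RatFunc (ZMod 2)))[X],
        Function.Injective P ∧ (∀ i, 0 < (P i).natDegree) ∧ CondI P ∧ ¬ CondII P) := by
  have e : (ZMod 2)[X] ≃+* (FunctionField.ringOfIntegers (ZMod 2) (RatFunc (ZMod 2))) :=
    (IsIntegralClosure.equiv (ZMod 2)[X] (ZMod 2)[X] (RatFunc (ZMod 2))
      (FunctionField.ringOfIntegers (ZMod 2) (RatFunc (ZMod 2)))).toRingEquiv
  refine ⟨?_, fun k hk => main_equiv e k hk⟩
  intro h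
  obtain ⟨P, -, hP, h1, h2⟩ := main_equiv e 1 le_rfl
  exact h2 ((h (ZMod 2) (RatFunc (ZMod 2)) 1 P le_rfl hP).mp h1)

end Pool.Agent.Results.MP_045218_nt.AffineIntersective
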